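import Pool.Agent.Work.MP_ce2d68_du.Interface

set_option autoImplicit false

/-!
# Block MPOLY: an integer polynomial which is small on the weighted discs
-/

open Polynomial Filter Topology
open scoped ComplexConjugate

namespace Pool.Agent.Work.MP_ce2d68_du.h77

open Pool.Agent.Work.MP_ce2d68_st Pool.Agent.Work.MP_ce2d68_du

lemma ev_conj (P : ℤ[X]) (z : ℂ) : conj (ev P z) = ev P (conj z) := by
  unfold ev cp
  rw [eval_map, eval_map, eval₂_eq_sum_range, eval₂_eq_sum_range, map_sum]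
  refine Finset.sum_congr rfl fun i _ => ?_
  simp

lemma ev_sq_add (P Q : ℤ[X]) (z : ℂ) : ev (P ^ 2 + Q ^ 2) z = ev P z ^ 2 + ev Q z ^ 2 := by
  unfold ev cp
  simp

lemma Tn_conj (G : Finset ℂ) (t : ℝ) (n : ℂ → ℕ) (hG : ∀ a ∈ G, conj a ∈ G)
    (hn : ∀ a ∈ G, n (conj a) = n a) (z : ℂ) : Tn G t n (conj z) = Tn G t n z := by
  unfold Tn
  refine Finset.prod_bij' (fun a _ => conj a) (fun a _ => conj a) (fun a ha => hG a ha)
    (fun a ha => hG a ha) (fun a _ => Complex.conj_conj a) (fun a _ => Complex.conj_conj a) ?_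
  intro a ha
  have h1 : ‖conj z - a‖ = ‖z - conj a‖ := by
    rw [← Complex.norm_conj (conj z - a), map_sub, Complex.conj_conj]
  rw [h1, hn a ha]

lemma Tn_nonneg (G : Finset ℂ) (t : ℝ) (n : ℂ → ℕ) (ht : 0 < t) (z : ℂ) : 0 ≤ Tn G t n z := by
  unfold Tn
  exact Finset.prod_nonneg fun a _ => pow_nonneg (le_trans ht.le (le_max_right _ _)) _

lemma sq_add_ne (P Q : ℤ[X]) (h : P ≠ 0 ∨ Q ≠ 0) : P ^ 2 + Q ^ 2 ≠ 0 := by
  intro h0
  have hx : ∀ x : ℤ, P.eval x = 0 ∧ Q.eval x = 0 := by
    intro x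
    have h1 : (P ^ 2 + Q ^ 2).eval x = 0 := by rw [h0, eval_zero]
    rw [eval_add, eval_pow, eval_pow] at h1
    constructor
    · nlinarith [sq_nonneg (P.eval x), sq_nonneg (Q.eval x)]
    · nlinarith [sq_nonneg (P.eval x), sq_nonneg (Q.eval x)]
  rcases h with h | h
  · exact h (Polynomial.funext fun x => by rw [(hx x).1, eval_zero])
  · exact h (Polynomial.funext fun x => by rw [(hx x).2, eval_zero])

/-- Lagrange interpolation with nodes `N`. -/
lemma lagr (N : Finset ℂ) (g : ℂ[X]) (hg : g.degree < N.card) (z : ℂ) :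
    ‖g.eval z‖ ≤ ∑ a ∈ N, ‖g.eval a‖ * ((∏ b ∈ N.erase a, ‖z - b‖) / ∏ b ∈ N.erase a, ‖a - b‖) := by
  classical
  have h1 := Lagrange.eq_interpolate (s := N) (v := fun x : ℂ => x) (f := g)
    (fun x _ y _ h => h) hg
  have h2 : g.eval z = ∑ a ∈ N, g.eval a * ∏ b ∈ N.erase a, ((a - b)⁻¹ * (z - b)) := by
    conv_lhs => rw [h1]
    rw [Lagrange.interpolate_apply, eval_finsetSum]
    refine Finset.sum_congr rfl fun a _ => ?_
    rw [eval_mul, eval_C, Lagrange.basis, eval_prod]
    congr 1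
    refine Finset.prod_congr rfl fun b _ => ?_
    rw [Lagrange.basisDivisor, eval_mul, eval_C, eval_sub, eval_X, eval_C]
  rw [h2]
  refine (norm_sum_le _ _).trans (Finset.sum_le_sum fun a _ => ?_)
  rw [norm_mul, norm_prod]
  refine le_of_eq ?_
  congr 1
  rw [← Finset.prod_div_distrib]
  refine Finset.prod_congr rfl fun b _ => ?_
  rw [norm_mul, norm_inv, div_eq_mul_inv, mul_comm]

/-- `MPOLY` -/
theorem p_MPOLY (hG : Stmt_GMINK) (hN : Stmt_NODES) : Stmt_MPOLY := by
  intro G t ht hGc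
  obtain ⟨C₀, hC₀, hnodes⟩ := hN G t ht
  refine ⟨4 + |2 * Real.log (2 * C₀)| + C₀, by positivity, ?_⟩
  intro n hn hν
  obtain ⟨N, hcard, hprod, hen⟩ := hnodes n hν
  set ν : ℕ := ∑ a ∈ G, n a with hνdef
  have hνpos : (0 : ℝ) < (ν : ℝ) := by exact_mod_cast hν
  have hNne : N.Nonempty := by
    rw [← Finset.card_pos, hcard]
    exact hν
  obtain ⟨G₁, G₂, hne, hd1, hd2, hsmall⟩ := hG N hNne
  rw [hcard] at hd1 hd2 hen hsmall
  set E : ℝ := ∑ a ∈ N, ∑ b ∈ N.erase a, Real.log ‖a - b‖ with hE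
  set It : ℝ := ∑ a ∈ G, n a * Real.circleAverage (fun z => Real.log (Tn G t n z)) a t with hIt
  set g : ℂ[X] := cp G₁ + C Complex.I * cp G₂ with hgdef
  have hgev : ∀ z, g.eval z = ev G₁ z + Complex.I * ev G₂ z := by
    intro z
    rw [hgdef, eval_add, eval_mul, eval_C]
    rfl
  have hgdeg : g.degree < N.card := by
    rw [hcard]
    have h1 : (cp G₁).degree < (ν : WithBot ℕ) := by
      refine lt_of_le_of_lt degree_map_le ?_
      refine lt_of_le_of_lt degree_le_natDegree ?_
      exact_mod_cast hd1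
    have h2 : (C Complex.I * cp G₂).degree < (ν : WithBot ℕ) := by
      refine lt_of_le_of_lt degree_le_natDegree ?_
      have h3 : (C Complex.I * cp G₂).natDegree ≤ G₂.natDegree :=
        (natDegree_C_mul_le _ _).trans natDegree_map_le
      exact_mod_cast lt_of_le_of_lt h3 hd2
    exact lt_of_le_of_lt (degree_add_le _ _) (max_lt h1 h2)
  have hgz : ∀ z, ‖g.eval z‖ ≤ 2 * C₀ * ν ^ 2 * Real.exp (-E / (2 * ν)) * Tn G t n z := by
    intro z
    refine (lagr N g hgdeg z).trans ?_
    have hterm : ∀ a ∈ N, ‖g.eval a‖ *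
        ((∏ b ∈ N.erase a, ‖z - b‖) / ∏ b ∈ N.erase a, ‖a - b‖)
          ≤ 2 * Real.exp (-E / (2 * ν)) * (C₀ * ν * Tn G t n z) := by
      intro a ha
      have hP : 0 < ∏ b ∈ N.erase a, ‖a - b‖ := by
        refine Finset.prod_pos fun b hb => ?_
        rw [norm_pos_iff, sub_ne_zero]
        exact (Finset.ne_of_mem_erase hb).symm
      have h1 := hsmall a ha
      rw [← hgev a] at h1
      have h2 := hprod a ha z
      rw [hcard] at h2
      have hz0 : 0 ≤ ∏ b ∈ N.erase a, ‖z - b‖ := Finset.prod_nonneg fun b _ => norm_nonneg _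
      calc ‖g.eval a‖ * ((∏ b ∈ N.erase a, ‖z - b‖) / ∏ b ∈ N.erase a, ‖a - b‖)
          ≤ (2 * Real.exp (-E / (2 * ν)) * ∏ b ∈ N.erase a, ‖a - b‖) *
            ((∏ b ∈ N.erase a, ‖z - b‖) / ∏ b ∈ N.erase a, ‖a - b‖) :=
              mul_le_mul_of_nonneg_right h1 (div_nonneg hz0 hP.le)
        _ = 2 * Real.exp (-E / (2 * ν)) * ∏ b ∈ N.erase a, ‖z - b‖ := by
              field_simp
        _ ≤ _ := mul_le_mul_of_nonneg_left h2 (by positivity)
    refine (Finset.sum_le_sum hterm).trans ?_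
    rw [Finset.sum_const, hcard, nsmul_eq_mul]
    refine le_of_eq ?_
    ring
  refine ⟨G₁ ^ 2 + G₂ ^ 2, sq_add_ne G₁ G₂ hne, ?_, ?_⟩
  · refine (natDegree_add_le _ _).trans ?_
    rw [natDegree_pow, natDegree_pow]
    exact max_le (by omega) (by omega)
  · intro z
    have hfac : ‖ev (G₁ ^ 2 + G₂ ^ 2) z‖ = ‖g.eval z‖ * ‖g.eval (conj z)‖ := by
      have h1 : conj (g.eval (conj z)) = ev G₁ z - Complex.I * ev G₂ z := by
        rw [hgev, map_add, map_mul, ev_conj, ev_conj, Complex.conj_conj, Complex.conj_I]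
        ring
      rw [← Complex.norm_conj (g.eval (conj z)), h1, ← norm_mul, hgev, ev_sq_add]
      congr 1
      linear_combination (ev G₂ z) ^ 2 * Complex.I_sq
    have hT := Tn_nonneg G t n ht z
    have hb1 := hgz z
    have hb2 := hgz (conj z)
    rw [Tn_conj G t n hGc hn z] at hb2
    have hlog : 0 ≤ Real.log ν := Real.log_nonneg (by exact_mod_cast hν)
    rw [hfac]
    calc ‖g.eval z‖ * ‖g.eval (conj z)‖
        ≤ (2 * C₀ * ν ^ 2 * Real.exp (-E / (2 * ν)) * Tn G t n z) *
          (2 * C₀ * ν ^ 2 * Real.exp (-E / (2 * ν)) * Tn G t n z) :=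
            mul_le_mul hb1 hb2 (norm_nonneg _) (by positivity)
      _ = ((2 * C₀ * ν ^ 2) ^ 2 * Real.exp (-E / ν)) * Tn G t n z ^ 2 := by
            have h1 : Real.exp (-E / ν) = Real.exp (-E / (2 * ν)) * Real.exp (-E / (2 * ν)) := by
              rw [← Real.exp_add]
              congr 1
              field_simp
              ring
            rw [h1]
            ring
      _ ≤ _ := by
            refine mul_le_mul_of_nonneg_right ?_ (sq_nonneg _)
            have hpos : (0 : ℝ) < 2 * C₀ * (ν : ℝ) ^ 2 := by positivity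
            have h2 : (2 * C₀ * (ν : ℝ) ^ 2) ^ 2
                = Real.exp (2 * Real.log (2 * C₀) + 4 * Real.log ν) := by
              rw [← Real.exp_log (pow_pos hpos 2), Real.log_pow, Real.log_mul (by positivity)
                (by positivity), Real.log_pow]
              congr 1
              push_cast
              ring
            rw [h2, ← Real.exp_add]
            refine Real.exp_le_exp.mpr ?_
            have h3 : -E / ν ≤ -It / ν + C₀ := by
              rw [div_add' _ _ _ hνpos.ne', div_le_div_iff_of_pos_right hνpos]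
              linarith
            have h4 : 2 * Real.log (2 * C₀) ≤ |2 * Real.log (2 * C₀)| := le_abs_self _
            have h5 : 0 ≤ |2 * Real.log (2 * C₀)| * Real.log ν := mul_nonneg (abs_nonneg _) hlog
            have h6 : 0 ≤ C₀ * Real.log ν := mul_nonneg hC₀.le hlog
            have h7 : -It / ν = -(It / ν) := by ring
            rw [h7] at h3
            nlinarith

end Pool.Agent.Work.MP_ce2d68_du.h77
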